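import Pool.Agent.Helper77.CR.Defs

/-!
# CR-CLUSK: functions on the clusters
-/

namespace Pool.Agent.Helper77.CR

open Pool.Agent.Helper9.FA (Item Cor Ang wfP labels)
open Pool.Agent.Helper9.TW (Lab Conn)
open Pool.Agent.Helper28.TX (PV Pot)

variable {α : Type}

namespace ClusK

theorem potMap {K K' : Type} (f : K → K') {P : List (Item α)} {c0 c1 : K} {c : List K}
    {θ : List (PV K)} {e : List (Bool × K × K)} (h : Pot c0 c1 P c θ e) :
    Pot (f c0) (f c1) P (c.map f) (θ.map (PV.map f)) (mE f e) := by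
  induction h with
  | nil => exact Pot.nil
  | @cup P l r a m θ e h ih =>
    have h2 := Pot.cup (l := l.map f) (r := r.map f) (a := f a) (m := f m) (by simpa using ih)
    simpa [mE] using h2
  | @cap P l r a m θ e h ih =>
    have h2 := Pot.cap (l := l.map f) (r := r.map f) (a := f a) (m := f m) (by simpa using ih)
    simpa [mE] using h2
  | @box P l r x q θ e h ih =>
    have h2 := Pot.box (l := l.map f) (r := r.map f) (x := x) (q := PV.map f q)
      (by simpa [PV.map] using ih)
    simpa [PV.map] using h2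

/-- adjacent marked places have the same value -/
def Adj {K : Type} : List Bool → List K → Prop
  | a :: b :: t, x :: y :: s => (a = true → b = true → x = y) ∧ Adj (b :: t) (y :: s)
  | _, _ => True

theorem adj_append {K : Type} {a : Bool} {x : K} {r : List Bool} {r' : List K} :
    ∀ {l : List Bool} {l' : List K}, l.length = l'.length →
    (Adj (l ++ a :: r) (l' ++ x :: r') ↔ Adj (l ++ [a]) (l' ++ [x]) ∧ Adj (a :: r) (x :: r'))
  | [], [], _ => by simp [Adj]
  | [], y :: l', h => by simp at h
  | b :: l, [], h => by simp at h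
  | [b], [y], _ => by simp [Adj]
  | [b], y :: y2 :: l', h => by simp at h
  | b :: b2 :: l, [y], h => by simp at h
  | b :: b2 :: l, y :: y2 :: l', h => by
    have ih := adj_append (a := a) (x := x) (r := r) (r' := r') (l := b2 :: l) (l' := y2 :: l')
      (by simpa using h)
    simp only [List.cons_append] at ih ⊢
    simp only [Adj, ih, and_assoc]

theorem adj_map {K K' : Type} (f : K → K') : ∀ {c : List Bool} {c' : List K}, Adj c c' →
    Adj c (c'.map f)
  | [], _, _ => by simp [Adj]
  | [a], _, _ => by simp [Adj]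
  | a :: b :: t, [], _ => by simp [Adj]
  | a :: b :: t, [x], _ => by simp [Adj]
  | a :: b :: t, x :: y :: s, h => by
    simp only [Adj, List.map_cons] at h ⊢
    exact ⟨fun h1 h2 => by rw [h.1 h1 h2], adj_map f h.2⟩

theorem adj_get {K : Type} : ∀ {i : ℕ} {c : List Bool} {c' : List K} {x y : K}, Adj c c' →
    (c)[i]? = some true → (c)[i + 1]? = some true → (c')[i]? = some x → (c')[i + 1]? = some y →
    x = y
  | _, [], _, x, y, _, h1, _, _, _ => by simp at h1
  | _, [a], _, x, y, _, _, h2, _, _ => by simp at h2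
  | _, a :: b :: t, [], x, y, _, _, _, h3, _ => by simp at h3
  | _, a :: b :: t, [z], x, y, _, _, _, _, h4 => by simp at h4
  | 0, a :: b :: t, u :: v :: s, x, y, h, h1, h2, h3, h4 => by
    simp only [List.getElem?_cons_zero, List.getElem?_cons_succ, Option.some.injEq, Adj] at *
    subst h1 h2 h3 h4
    exact h.1 rfl rfl
  | i + 1, a :: b :: t, u :: v :: s, x, y, h, h1, h2, h3, h4 => by
    rw [List.getElem?_cons_succ] at h1 h2 h3 h4
    exact adj_get h.2 h1 h2 h3 h4

/-- condition at a vertex -/
def VC {K : Type} [Zero K] (w : Bool × PV Bool) (z : PV K) : Prop :=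
  (∀ v ∈ List.zip (cor w.2) (cor z), v.1 = false → v.2 = 0) ∧
    (¬ (w.1 = true ∧ BT w.2) → ∀ v ∈ List.zip (cor w.2) (cor z),
      ∀ v' ∈ List.zip (cor w.2) (cor z), v.1 = true → v'.1 = true → v.2 = v'.2)

/-- condition at a minimum or maximum -/
def VE {K : Type} [Zero K] (y : Bool × Bool × Bool) (z : Bool × K × K) : Prop :=
  (y.2.1 = false → z.2.1 = 0) ∧ (y.2.2 = false → z.2.2 = 0) ∧
    (y.2.1 = true → y.2.2 = true → z.2.1 = z.2.2)

theorem vc_map {K K' : Type} [AddCommGroup K] [Module ℝ K] [AddCommGroup K'] [Module ℝ K']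
    (ψ : K →ₗ[ℝ] K') {w : Bool × PV Bool} {z : PV K} (h : VC w z) : VC w (PV.map ψ z) := by
  have hz : List.zip (cor w.2) (cor (PV.map ψ z)) =
      (List.zip (cor w.2) (cor z)).map (fun v => (v.1, ψ v.2)) := by
    simp [cor, PV.map]
  constructor
  · intro v hv h1
    rw [hz, List.mem_map] at hv
    obtain ⟨u, hu, rfl⟩ := hv
    show ψ u.2 = 0
    rw [h.1 u hu h1, map_zero]
  · intro hn v hv v' hv' h1 h2
    rw [hz, List.mem_map] at hv hv'
    obtain ⟨u, hu, rfl⟩ := hv
    obtain ⟨u', hu', rfl⟩ := hv'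
    show ψ u.2 = ψ u'.2
    rw [h.2 hn u hu u' hu' h1 h2]

/-- the conditions -/
structure Dat (P : List (Item α)) (c : List Bool) (θ : List (PV Bool))
    (e : List (Bool × Bool × Bool)) (δ : List Bool) (K : Type) [AddCommGroup K] [Module ℝ K]
    (c' : List K) (θ' : List (PV K)) (e' : List (Bool × K × K)) : Prop where
  pot : Pot (0 : K) 0 P c' θ' e'
  cc : List.Forall₂ (fun (b : Bool) (x : K) => b = false → x = 0) c c'
  adj : Adj c c'
  th : List.Forall₂ VC (List.zip δ θ) θ'
  ee : List.Forall₂ VE e e'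

/-- all entries -/
def entr {K : Type} (θ' : List (PV K)) (e' : List (Bool × K × K)) : Set K :=
  {x : K | x ∈ θ'.flatMap cor ∨ ∃ y ∈ e', x = y.2.1 ∨ x = y.2.2}

theorem Dat.map {P : List (Item α)} {c : List Bool} {θ : List (PV Bool)}
    {e : List (Bool × Bool × Bool)} {δ : List Bool} {K K' : Type} [AddCommGroup K] [Module ℝ K]
    [AddCommGroup K'] [Module ℝ K'] (ψ : K →ₗ[ℝ] K')
    {c' : List K} {θ' : List (PV K)} {e' : List (Bool × K × K)} (D : Dat P c θ e δ K c' θ' e') :
    Dat P c θ e δ K' (c'.map ψ) (θ'.map (PV.map ψ)) (mE ψ e') where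
  pot := by simpa using potMap ψ D.pot
  cc := by
    rw [List.forall₂_map_right_iff]
    exact D.cc.imp fun b x h hb => by rw [h hb, map_zero]
  adj := adj_map ψ D.adj
  th := by
    rw [List.forall₂_map_right_iff]
    exact D.th.imp fun b x h => vc_map ψ h
  ee := by
    rw [mE, List.forall₂_map_right_iff]
    exact D.ee.imp fun b x h => ⟨fun hb => by simp [h.1 hb], fun hb => by simp [h.2.1 hb],
      fun h1 h2 => by simp [h.2.2 h1 h2]⟩

theorem entr_map {K K' : Type} (ψ : K → K') (θ' : List (PV K)) (e' : List (Bool × K × K)) :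
    ψ '' entr θ' e' ⊆ entr (θ'.map (PV.map ψ)) (mE ψ e') := by
  rintro _ ⟨x, hx, rfl⟩
  rcases hx with hx | ⟨y, hy, hx⟩
  · left
    rw [List.mem_flatMap] at hx ⊢
    obtain ⟨q, hq, hx⟩ := hx
    refine ⟨PV.map ψ q, List.mem_map_of_mem hq, ?_⟩
    simp only [cor, PV.map, List.mem_cons, List.not_mem_nil, or_false] at hx ⊢
    rcases hx with rfl | rfl | rfl | rfl <;> simp
  · right
    refine ⟨(y.1, ψ y.2.1, ψ y.2.2), ?_, ?_⟩
    · rw [mE, List.mem_map]
      exact ⟨y, hy, rfl⟩
    · rcases hx with rfl | rfl <;> simp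

theorem span_new {K K' : Type} [AddCommGroup K] [Module ℝ K] [AddCommGroup K'] [Module ℝ K']
    {S : Set K} (hS : Submodule.span ℝ S = ⊤) (ψ : K →ₗ[ℝ] K') (w : K')
    (h : LinearMap.range ψ ⊔ Submodule.span ℝ {w} = ⊤) {S' : Set K'} (h1 : ψ '' S ⊆ S')
    (h2 : w ∈ Submodule.span ℝ S') : Submodule.span ℝ S' = ⊤ := by
  rw [eq_top_iff, ← h, sup_le_iff]
  constructor
  · rw [LinearMap.range_eq_map, ← hS, Submodule.map_span]
    exact Submodule.span_mono h1
  · rw [Submodule.span_singleton_le_iff_mem]
    exact h2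

/-- the result -/
def Res (P : List (Item α)) (c : List Bool) (θ : List (PV Bool))
    (e : List (Bool × Bool × Bool)) (δ : List Bool) : Prop :=
  ∃ (K : Type) (_ : AddCommGroup K) (_ : Module ℝ K) (_ : FiniteDimensional ℝ K)
    (c' : List K) (θ' : List (PV K)) (e' : List (Bool × K × K)), Dat P c θ e δ K c' θ' e' ∧
    Submodule.span ℝ (entr θ' e') = ⊤ ∧ EC θ e + nBT δ θ ≤ Module.finrank ℝ K

theorem EC_cup (θ : List (PV Bool)) (e : List (Bool × Bool × Bool)) (a m : Bool) :
    EC θ ((true, a, m) :: e) = EC θ e - bz (a && !m) := by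
  simp [EC]; ring

theorem EC_cap (θ : List (PV Bool)) (e : List (Bool × Bool × Bool)) (a m : Bool) :
    EC θ ((false, a, m) :: e) = EC θ e + bz (m && !a) := by
  simp [EC]; ring

theorem EC_box (q : PV Bool) (θ : List (PV Bool)) (e : List (Bool × Bool × Bool)) :
    EC (q :: θ) e = EC θ e + kc q := by
  simp [EC]; ring

theorem nBT_cons (b : Bool) (δ : List Bool) (q : PV Bool) (θ : List (PV Bool)) :
    nBT (b :: δ) (q :: θ) = nBT δ θ + if b = true ∧ BT q then 1 else 0 := by
  simp [nBT]; ring

section Steps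

variable {P : List (Item α)} {l r : List Bool} {θ : List (PV Bool)}
    {e : List (Bool × Bool × Bool)} {δ : List Bool} {K K1 : Type} [AddCommGroup K] [Module ℝ K]
    [AddCommGroup K1] [Module ℝ K1] [FiniteDimensional ℝ K1]
    {l' r' : List K} {θ' : List (PV K)} {e' : List (Bool × K × K)}

theorem cap_step {a m : Bool} {x : K} (hl : l.length = l'.length)
    (D : Dat P (l ++ a :: r) θ e δ K (l' ++ x :: r') θ' e')
    (hs : Submodule.span ℝ (entr θ' e') = ⊤) (hf : EC θ e + nBT δ θ ≤ Module.finrank ℝ K)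
    (ψ : K →ₗ[ℝ] K1) (w : K1) (hψ : LinearMap.range ψ ⊔ Submodule.span ℝ {w} = ⊤)
    (h1 : m = false → w = 0) (h2 : a = true → m = true → ψ x = w)
    (h3 : (Module.finrank ℝ K : ℤ) + bz (m && !a) ≤ Module.finrank ℝ K1) :
    Res (.cap l.length :: P) (l ++ a :: m :: a :: r) θ ((false, a, m) :: e) δ := by
  have D1 := D.map ψ
  have hl1 : l.length = (l'.map ψ).length := by simpa using hl
  obtain ⟨hp, hcc, hadj, hth, hee⟩ := D1
  rw [List.map_append, List.map_cons] at hp hcc hadj
  refine ⟨K1, inferInstance, inferInstance, inferInstance,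
    l'.map ψ ++ ψ x :: w :: ψ x :: r'.map ψ, θ'.map (PV.map ψ), (false, ψ x, w) :: mE ψ e',
    ⟨?_, ?_, ?_, hth, ?_⟩, ?_, ?_⟩
  · rw [hl1]
    exact Pot.cap hp
  · have h4 := (List.forall₂_take l.length hcc)
    have h5 := (List.forall₂_drop l.length hcc)
    rw [List.take_left, hl1, List.take_left] at h4
    rw [List.drop_left, hl1, List.drop_left] at h5
    refine List.rel_append h4 ?_
    rw [List.forall₂_cons] at h5
    exact List.Forall₂.cons h5.1 (List.Forall₂.cons h1 (List.Forall₂.cons h5.1 h5.2))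
  · rw [adj_append hl1] at hadj ⊢
    refine ⟨hadj.1, ?_⟩
    simp only [Adj]
    exact ⟨h2, fun hm ha => (h2 ha hm).symm, hadj.2⟩
  · refine List.Forall₂.cons ⟨?_, h1, h2⟩ hee
    have h5 := (List.forall₂_drop l.length hcc)
    rw [List.drop_left, hl1, List.drop_left, List.forall₂_cons] at h5
    exact h5.1
  · refine span_new hs ψ w hψ ?_ ?_
    · refine (entr_map ψ θ' e').trans ?_
      rintro y (hy | ⟨z, hz, hy⟩)
      · exact Or.inl hy
      · exact Or.inr ⟨z, List.mem_cons_of_mem _ hz, hy⟩
    · exact Submodule.subset_span (Or.inr ⟨_, List.mem_cons_self, Or.inr rfl⟩)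
  · rw [EC_cap]
    omega

theorem cup_step {a m : Bool} {x1 x2 w : K} (hl : l.length = l'.length)
    (D : Dat P (l ++ a :: m :: a :: r) θ e δ K (l' ++ x1 :: w :: x2 :: r') θ' e')
    (hs : Submodule.span ℝ (entr θ' e') = ⊤) (hf : EC θ e + nBT δ θ ≤ Module.finrank ℝ K)
    (ψ : K →ₗ[ℝ] K1) (hψ : LinearMap.range ψ = ⊤) (h2 : ψ x1 = ψ x2)
    (h3 : (Module.finrank ℝ K : ℤ) - bz (a && !m) ≤ Module.finrank ℝ K1) :
    Res (.cup l.length :: P) (l ++ a :: r) θ ((true, a, m) :: e) δ := by
  have D1 := D.map ψ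
  have hl1 : l.length = (l'.map ψ).length := by simpa using hl
  obtain ⟨hp, hcc, hadj, hth, hee⟩ := D1
  rw [List.map_append, List.map_cons, List.map_cons, List.map_cons] at hp hcc hadj
  have h4 := (List.forall₂_take l.length hcc)
  have h5 := (List.forall₂_drop l.length hcc)
  rw [List.take_left, hl1, List.take_left] at h4
  rw [List.drop_left, hl1, List.drop_left, List.forall₂_cons, List.forall₂_cons,
    List.forall₂_cons] at h5
  refine ⟨K1, inferInstance, inferInstance, inferInstance,
    l'.map ψ ++ ψ x1 :: r'.map ψ, θ'.map (PV.map ψ), (true, ψ x1, ψ w) :: mE ψ e',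
    ⟨?_, ?_, ?_, hth, ?_⟩, ?_, ?_⟩
  · rw [hl1]
    rw [← h2] at hp
    exact Pot.cup hp
  · refine List.rel_append h4 ?_
    exact List.Forall₂.cons h5.1 h5.2.2.2
  · rw [adj_append hl1] at hadj ⊢
    refine ⟨hadj.1, ?_⟩
    have := hadj.2
    simp only [Adj] at this
    rw [h2]
    exact this.2.2
  · refine List.Forall₂.cons ⟨h5.1, h5.2.1, ?_⟩ hee
    rw [adj_append hl1] at hadj
    have := hadj.2
    simp only [Adj] at this
    exact this.1
  · refine span_new hs ψ 0 ?_ ?_ ?_
    · simp [hψ]
    · refine (entr_map ψ θ' e').trans ?_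
      rintro y (hy | ⟨z, hz, hy⟩)
      · exact Or.inl hy
      · exact Or.inr ⟨z, List.mem_cons_of_mem _ hz, hy⟩
    · exact Submodule.zero_mem _
  · rw [EC_cup]
    omega

theorem box_step {a : α} {b : Bool} {q : PV Bool} {xl xt xr : K} (hl : l.length = l'.length)
    (D : Dat P (l ++ q.L :: q.T :: q.R :: r) θ e δ K (l' ++ xl :: xt :: xr :: r') θ' e')
    (hs : Submodule.span ℝ (entr θ' e') = ⊤) (hf : EC θ e + nBT δ θ ≤ Module.finrank ℝ K)
    (ψ : K →ₗ[ℝ] K1) (w : K1) (hψ : LinearMap.range ψ ⊔ Submodule.span ℝ {w} = ⊤)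
    (h1 : q.B = false → w = 0) (h2 : q.L = true → q.B = true → ψ xl = w)
    (h2' : q.B = true → q.R = true → w = ψ xr)
    (hv : VC (b, q) ⟨ψ xl, w, ψ xr, ψ xt⟩)
    (h3 : (Module.finrank ℝ K : ℤ) + kc q + (if b = true ∧ BT q then 1 else 0) ≤
      Module.finrank ℝ K1) :
    Res (.box l.length a :: P) (l ++ q.L :: q.B :: q.R :: r) (q :: θ) e (b :: δ) := by
  have D1 := D.map ψ
  have hl1 : l.length = (l'.map ψ).length := by simpa using hl
  obtain ⟨hp, hcc, hadj, hth, hee⟩ := D1
  rw [List.map_append, List.map_cons, List.map_cons, List.map_cons] at hp hcc hadj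
  have h4 := (List.forall₂_take l.length hcc)
  have h5 := (List.forall₂_drop l.length hcc)
  rw [List.take_left, hl1, List.take_left] at h4
  rw [List.drop_left, hl1, List.drop_left, List.forall₂_cons, List.forall₂_cons,
    List.forall₂_cons] at h5
  refine ⟨K1, inferInstance, inferInstance, inferInstance,
    l'.map ψ ++ ψ xl :: w :: ψ xr :: r'.map ψ, ⟨ψ xl, w, ψ xr, ψ xt⟩ :: θ'.map (PV.map ψ),
    mE ψ e', ⟨?_, ?_, ?_, ?_, hee⟩, ?_, ?_⟩
  · rw [hl1]
    exact Pot.box (q := ⟨ψ xl, w, ψ xr, ψ xt⟩) hp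
  · refine List.rel_append h4 ?_
    exact List.Forall₂.cons h5.1 (List.Forall₂.cons h1 (List.Forall₂.cons h5.2.2.1 h5.2.2.2))
  · rw [adj_append hl1] at hadj ⊢
    refine ⟨hadj.1, ?_⟩
    have := hadj.2
    simp only [Adj] at this ⊢
    exact ⟨h2, h2', this.2.2⟩
  · rw [List.zip_cons_cons]
    exact List.Forall₂.cons hv hth
  · refine span_new hs ψ w hψ ?_ ?_
    · refine (entr_map ψ θ' e').trans ?_
      rintro y (hy | hy)
      · exact Or.inl (by rw [List.flatMap_cons]; exact List.mem_append_right _ hy)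
      · exact Or.inr hy
    · exact Submodule.subset_span (Or.inl (by simp [cor]))
  · rw [EC_box, nBT_cons]
    push_cast
    split_ifs at h3 ⊢ <;> omega

end Steps

theorem split3 {A B : Type} {R : A → B → Prop} {l r : List A} {a b c : A} {c' : List B}
    (h : List.Forall₂ R (l ++ a :: b :: c :: r) c') :
    ∃ l' x y z r', c' = l' ++ x :: y :: z :: r' ∧ l.length = l'.length := by
  have h1 := h.length_eq
  rw [List.length_append, List.length_cons, List.length_cons, List.length_cons] at h1
  have h2 : (c'.drop l.length).length = r.length + 3 := by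
    rw [List.length_drop]; omega
  match h3 : c'.drop l.length, h2 with
  | x :: y :: z :: r', _ =>
    refine ⟨c'.take l.length, x, y, z, r', ?_, ?_⟩
    · rw [← h3, List.take_append_drop]
    · rw [List.length_take]; omega

theorem split1 {A B : Type} {R : A → B → Prop} {l r : List A} {a : A} {c' : List B}
    (h : List.Forall₂ R (l ++ a :: r) c') :
    ∃ l' x r', c' = l' ++ x :: r' ∧ l.length = l'.length := by
  have h1 := h.length_eq
  rw [List.length_append, List.length_cons] at h1
  have h2 : (c'.drop l.length).length = r.length + 1 := by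
    rw [List.length_drop]; omega
  match h3 : c'.drop l.length, h2 with
  | x :: r', _ =>
    refine ⟨c'.take l.length, x, r', ?_, ?_⟩
    · rw [← h3, List.take_append_drop]
    · rw [List.length_take]; omega

theorem finrank_quot {K : Type} [AddCommGroup K] [Module ℝ K] [FiniteDimensional ℝ K] (u : K) :
    Module.finrank ℝ K ≤ Module.finrank ℝ (K ⧸ Submodule.span ℝ {u}) + 1 := by
  have h1 := Submodule.finrank_quotient_add_finrank (Submodule.span ℝ {u})
  have h2 : Module.finrank ℝ (Submodule.span ℝ {u}) ≤ 1 := by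
    refine (finrank_span_le_card _).trans ?_
    simp
  omega

theorem range_inl {K : Type} [AddCommGroup K] [Module ℝ K] :
    LinearMap.range (LinearMap.inl ℝ K ℝ) ⊔ Submodule.span ℝ {((0 : K), (1 : ℝ))} = ⊤ := by
  rw [eq_top_iff]
  rintro ⟨x, t⟩ -
  have h1 : ((x, t) : K × ℝ) = LinearMap.inl ℝ K ℝ x + t • ((0 : K), (1 : ℝ)) := by
    simp
  rw [h1]
  exact Submodule.add_mem_sup (LinearMap.mem_range_self _ _)
    (Submodule.smul_mem _ _ (Submodule.mem_span_singleton_self _))

theorem adj3 {K : Type} {l r : List Bool} {a b c : Bool} {l' r' : List K} {x y z : K}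
    (hl : l.length = l'.length) (h : Adj (l ++ a :: b :: c :: r) (l' ++ x :: y :: z :: r')) :
    (a = true → b = true → x = y) ∧ (b = true → c = true → y = z) := by
  rw [adj_append hl] at h
  have h2 := h.2
  simp only [Adj] at h2
  exact ⟨h2.1, h2.2.1⟩

theorem cc3 {K : Type} [Zero K] {l r : List Bool} {a b c : Bool} {l' r' : List K} {x y z : K}
    (hl : l.length = l'.length) (h : List.Forall₂ (fun (b : Bool) (x : K) => b = false → x = 0)
      (l ++ a :: b :: c :: r) (l' ++ x :: y :: z :: r')) :
    (a = false → x = 0) ∧ (b = false → y = 0) ∧ (c = false → z = 0) := by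
  have h5 := (List.forall₂_drop l.length h)
  rw [List.drop_left, hl, List.drop_left, List.forall₂_cons, List.forall₂_cons,
    List.forall₂_cons] at h5
  exact ⟨h5.1, h5.2.1, h5.2.2.1⟩

theorem main {P : List (Item α)} {c : List Bool} {θ : List (PV Bool)}
    {e : List (Bool × Bool × Bool)} (h : Pot false false P c θ e) :
    ∀ {δ : List Bool}, δ.length = θ.length → Res P c θ e δ := by
  induction h with
  | nil =>
    intro δ hδ
    have hδ0 : δ = [] := by simpa using hδ
    subst hδ0
    refine ⟨PUnit, inferInstance, inferInstance, inferInstance, [0, 0], [], [], ⟨Pot.nil, ?_, ?_,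
      ?_, ?_⟩, ?_, ?_⟩
    · simp
    · simp [Adj]
    · simp
    · simp
    · exact Subsingleton.elim _ _
    · simp [EC, nBT]
  | @cup P l r a m θ e h ih =>
    intro δ hδ
    obtain ⟨K, i1, i2, i3, c', θ', e', D, hs, hf⟩ := ih hδ
    obtain ⟨l', x1, w, x2, r', rfl, hl⟩ := split3 D.cc
    have ha := adj3 hl D.adj
    have hc := cc3 hl D.cc
    rcases Bool.eq_false_or_eq_true a with rfl | rfl
    · rcases Bool.eq_false_or_eq_true m with rfl | rfl
      · refine cup_step hl D hs hf LinearMap.id LinearMap.range_id ?_ ?_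
        · simp only [LinearMap.id_apply]
          rw [ha.1 rfl rfl, ha.2 rfl rfl]
        · simp [bz]
      · refine cup_step hl D hs hf (Submodule.mkQ (Submodule.span ℝ {x1 - x2}))
          (Submodule.range_mkQ _) ?_ ?_
        · rw [Submodule.mkQ_apply, Submodule.mkQ_apply, Submodule.Quotient.eq]
          exact Submodule.mem_span_singleton_self _
        · have := finrank_quot (x1 - x2)
          simp only [bz]
          simp
          omega
    · refine cup_step hl D hs hf LinearMap.id LinearMap.range_id ?_ ?_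
      · simp only [LinearMap.id_apply]
        rw [hc.1 rfl, hc.2.2 rfl]
      · simp [bz]
  | @cap P l r a m θ e h ih =>
    intro δ hδ
    obtain ⟨K, i1, i2, i3, c', θ', e', D, hs, hf⟩ := ih hδ
    obtain ⟨l', x, r', rfl, hl⟩ := split1 D.cc
    have hid : ∀ w : K, LinearMap.range (LinearMap.id : K →ₗ[ℝ] K) ⊔ Submodule.span ℝ {w} = ⊤ := by
      intro w; simp
    rcases Bool.eq_false_or_eq_true m with rfl | rfl
    · rcases Bool.eq_false_or_eq_true a with rfl | rfl
      · exact cap_step hl D hs hf LinearMap.id x (hid _) (by simp) (by simp) (by simp [bz])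
      · exact cap_step hl D hs hf (LinearMap.inl ℝ K ℝ) (0, 1) range_inl (by simp) (by simp)
          (by simp [bz])
    · exact cap_step hl D hs hf LinearMap.id 0 (hid _) (by simp) (by simp) (by simp [bz])
  | @box P l r a q θ e h ih =>
    intro δ hδ
    match δ, hδ with
    | b :: δ, hδ =>
    obtain ⟨K, i1, i2, i3, c', θ', e', D, hs, hf⟩ := ih (δ := δ) (by simpa using hδ)
    obtain ⟨l', xl, xt, xr, r', rfl, hl⟩ := split3 D.cc
    have ha := adj3 hl D.adj
    have hc := cc3 hl D.cc
    have hid : ∀ w : K, LinearMap.range (LinearMap.id : K →ₗ[ℝ] K) ⊔ Submodule.span ℝ {w} = ⊤ := by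
      intro w; simp
    obtain ⟨L, B, R, T⟩ := q
    simp only at D ha hc
    cases L <;> cases R <;> cases T <;> cases B
    -- `L`, `R` false
    · exact box_step (q := ⟨false, false, false, false⟩) hl D hs hf LinearMap.id 0 (hid _)
        (by simp) (by simp) (by simp) (by simp_all [VC, cor, BT]) (by simp [kc, bz, BT])
    · exact box_step (q := ⟨false, true, false, false⟩) hl D hs hf (LinearMap.inl ℝ K ℝ) (0, 1)
        range_inl (by simp) (by simp) (by simp) (by simp_all [VC, cor, BT])
        (by simp [kc, bz, BT])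
    · exact box_step (q := ⟨false, false, false, true⟩) hl D hs hf LinearMap.id 0 (hid _)
        (by simp) (by simp) (by simp) (by simp_all [VC, cor, BT]) (by simp [kc, bz, BT])
    · cases b
      · exact box_step (q := ⟨false, true, false, true⟩) hl D hs hf LinearMap.id xt (hid _)
          (by simp) (by simp) (by simp) (by simp_all [VC, cor, BT]) (by simp [kc, bz, BT])
      · exact box_step (q := ⟨false, true, false, true⟩) hl D hs hf (LinearMap.inl ℝ K ℝ) (0, 1)
          range_inl (by simp) (by simp) (by simp) (by simp_all [VC, cor, BT])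
          (by simp [kc, bz, BT])
    -- `L` false, `R` true
    · exact box_step (q := ⟨false, false, true, false⟩) hl D hs hf LinearMap.id 0 (hid _)
        (by simp) (by simp) (by simp) (by simp_all [VC, cor, BT]) (by simp [kc, bz, BT])
    · exact box_step (q := ⟨false, true, true, false⟩) hl D hs hf LinearMap.id xr (hid _)
        (by simp) (by simp) (by simp) (by simp_all [VC, cor, BT]) (by simp [kc, bz, BT])
    · exact box_step (q := ⟨false, false, true, true⟩) hl D hs hf LinearMap.id 0 (hid _)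
        (by simp) (by simp) (by simp) (by simp_all [VC, cor, BT]) (by simp [kc, bz, BT])
    · exact box_step (q := ⟨false, true, true, true⟩) hl D hs hf LinearMap.id xr (hid _)
        (by simp) (by simp) (by simp) (by simp_all [VC, cor, BT]) (by simp [kc, bz, BT])
    -- `L` true, `R` false
    · exact box_step (q := ⟨true, false, false, false⟩) hl D hs hf LinearMap.id 0 (hid _)
        (by simp) (by simp) (by simp) (by simp_all [VC, cor, BT]) (by simp [kc, bz, BT])
    · exact box_step (q := ⟨true, true, false, false⟩) hl D hs hf LinearMap.id xl (hid _)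
        (by simp) (by simp) (by simp) (by simp_all [VC, cor, BT]) (by simp [kc, bz, BT])
    · exact box_step (q := ⟨true, false, false, true⟩) hl D hs hf LinearMap.id 0 (hid _)
        (by simp) (by simp) (by simp) (by simp_all [VC, cor, BT]) (by simp [kc, bz, BT])
    · exact box_step (q := ⟨true, true, false, true⟩) hl D hs hf LinearMap.id xl (hid _)
        (by simp) (by simp) (by simp) (by simp_all [VC, cor, BT]) (by simp [kc, bz, BT])
    -- `L`, `R` true
    · have hq := finrank_quot (xl - xr)
      have he : (Submodule.span ℝ {xl - xr}).mkQ xl = (Submodule.span ℝ {xl - xr}).mkQ xr := by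
        rw [Submodule.mkQ_apply, Submodule.mkQ_apply, Submodule.Quotient.eq]
        exact Submodule.mem_span_singleton_self _
      exact box_step (q := ⟨true, false, true, false⟩) hl D hs hf
        (Submodule.mkQ (Submodule.span ℝ {xl - xr})) 0 (by rw [Submodule.range_mkQ]; simp)
        (by simp) (by simp) (by simp) (by simp_all [VC, cor, BT])
        (by simp [kc, bz, BT]; omega)
    · have hq := finrank_quot (xl - xr)
      have he : (Submodule.span ℝ {xl - xr}).mkQ xl = (Submodule.span ℝ {xl - xr}).mkQ xr := by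
        rw [Submodule.mkQ_apply, Submodule.mkQ_apply, Submodule.Quotient.eq]
        exact Submodule.mem_span_singleton_self _
      exact box_step (q := ⟨true, true, true, false⟩) hl D hs hf
        (Submodule.mkQ (Submodule.span ℝ {xl - xr})) (Submodule.mkQ _ xl)
        (by rw [Submodule.range_mkQ]; simp)
        (by simp) (by simp) (fun _ _ => he) (by simp_all [VC, cor, BT])
        (by simp [kc, bz, BT]; omega)
    · exact box_step (q := ⟨true, false, true, true⟩) hl D hs hf LinearMap.id 0 (hid _)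
        (by simp) (by simp) (by simp) (by simp_all [VC, cor, BT]) (by simp [kc, bz, BT])
    · exact box_step (q := ⟨true, true, true, true⟩) hl D hs hf LinearMap.id xl (hid _)
        (by simp) (by simp) (by simp_all) (by simp_all [VC, cor, BT]) (by simp [kc, bz, BT])

end ClusK

theorem clusK {P : List (Item α)} {c : List Bool} {θ : List (PV Bool)} {e : List (Bool × Bool × Bool)}
    (h : Pot false false P c θ e) {δ : List Bool} (hδ : δ.length = θ.length) :
    ∃ (K : Type) (_ : AddCommGroup K) (_ : Module ℝ K) (_ : FiniteDimensional ℝ K)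
      (c' : List K) (θ' : List (PV K)) (e' : List (Bool × K × K)), Pot (0 : K) 0 P c' θ' e' ∧
      List.Forall₂ (fun (b : Bool) (x : K) => b = false → x = 0) c c' ∧
      (∀ (i : ℕ) (x y : K), (c)[i]? = some true → (c)[i + 1]? = some true → (c')[i]? = some x →
        (c')[i + 1]? = some y → x = y) ∧
      List.Forall₂ (fun (w : Bool × PV Bool) (z : PV K) =>
        (∀ v ∈ List.zip (cor w.2) (cor z), v.1 = false → v.2 = 0) ∧
        (¬ (w.1 = true ∧ BT w.2) → ∀ v ∈ List.zip (cor w.2) (cor z),
          ∀ v' ∈ List.zip (cor w.2) (cor z), v.1 = true → v'.1 = true → v.2 = v'.2))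
        (List.zip δ θ) θ' ∧
      List.Forall₂ (fun (y : Bool × Bool × Bool) (z : Bool × K × K) =>
        (y.2.1 = false → z.2.1 = 0) ∧ (y.2.2 = false → z.2.2 = 0) ∧
        (y.2.1 = true → y.2.2 = true → z.2.1 = z.2.2)) e e' ∧
      Submodule.span ℝ {x : K | x ∈ θ'.flatMap cor ∨ ∃ y ∈ e', x = y.2.1 ∨ x = y.2.2} = ⊤ ∧
      EC θ e + nBT δ θ ≤ Module.finrank ℝ K := by
  obtain ⟨K, i1, i2, i3, c', θ', e', D, hs, hf⟩ := ClusK.main h hδ
  exact ⟨K, i1, i2, i3, c', θ', e', D.pot, D.cc, fun i x y => ClusK.adj_get D.adj, D.th, D.ee,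
    hs, hf⟩

end Pool.Agent.Helper77.CR
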